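import Pool.Agent.H354Z.MK.Main

set_option autoImplicit false

/-- For `S = 6` states and words of length `T = 4`, every generating set of the toric ideal
contains a polynomial of total degree at least `9`. -/
theorem Pool.Agent.Results.MP_c5e1a2_co.ADegreeNine.result (k : Type) [Field k]
    (G : Set (MvPolynomial (Pool.Agent.H354Z.MK.Word 6 4) k))
    (hG : Ideal.span G = Pool.Agent.H354Z.MK.toricIdeal k 6 4) :
    ∃ g ∈ G, 9 ≤ g.totalDegree :=
  Pool.Agent.H354Z.MK.main k G hG
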