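import Pool.Agent.H101Z.THMC

set_option autoImplicit false

namespace Pool.Agent.Results.MP_c5e1a2_co.AMarkov

open Pool.Agent.H101Z.THMC

/-- For some `S ≥ 3` and `T ≥ 4`, every Markov basis of the toric homogeneous Markov chain model
without self-loops contains a move of degree larger than `S`. -/
theorem result : ∃ S T : ℕ, 3 ≤ S ∧ 4 ≤ T ∧
    ∀ Z : Finset (Word S T → ℤ), IsMarkovBasis Z → ∃ z ∈ Z, (S : ℤ) < moveDegree z := by
  refine ⟨26, 4, by norm_num, le_rfl, fun Z hZ => ?_⟩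
  obtain ⟨z, hz, h⟩ := markov Z hZ
  exact ⟨z, hz, lt_of_lt_of_le (by norm_num) h⟩

end Pool.Agent.Results.MP_c5e1a2_co.AMarkov
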