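import Pool.Agent.H101Z.THMC

set_option autoImplicit false

namespace Pool.Agent.Results.MP_c5e1a2_co.BGroebner

open Pool.Agent.H101Z.THMC

/-- For some `S ≥ 3` and `T ≥ 4`, over every field and for every term order, every Groebner basis
of the toric ideal contains a polynomial of degree larger than `S`. -/
theorem result : ∃ S T : ℕ, 3 ≤ S ∧ 4 ≤ T ∧
    ∀ (k : Type) [Field k] (m : MonomialOrder (Word S T)) (B : Set (MvPolynomial (Word S T) k)),
      IsGroebnerBasis m (toricIdeal k S T) B → ∃ g ∈ B, S < g.totalDegree := by
  refine ⟨26, 4, by norm_num, le_rfl, fun k _ m B hB => ?_⟩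
  by_contra hcon
  push Not at hcon
  exact not_span k B hB.1 (fun g hg => (hcon g hg).trans (by norm_num)) (groebner_span k m _ B hB)

end Pool.Agent.Results.MP_c5e1a2_co.BGroebner
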